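import Pool.Agent.Y140.AW.Stm
import Pool.Agent.Y241.WR.Ext

/-!
# Two embeddings of a regular Galois extension are conjugate (St_step), helper761

Adapted from `Pool.Agent.Y241.WR.Ext` (characteristic zero).
-/

set_option autoImplicit false

namespace Pool.Agent.Y761.AW

open Pool.Agent.Y241.WR Pool.Agent.Y140.AW Polynomial

/-- Bijections of transcendence bases extend to automorphisms. -/
theorem ext_basis {k N ι κ : Type} [Field k] [Field N] [IsAlgClosed N] [Algebra k N]
    (v : ι → N) (w : κ → N) (hv : IsTranscendenceBasis k v) (hw : IsTranscendenceBasis k w)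
    (e : ι ≃ κ) : ∃ τ : N ≃ₐ[k] N, ∀ i, τ (v i) = w (e i) := by
  let A := Algebra.adjoin k (Set.range v)
  let B := Algebra.adjoin k (Set.range w)
  have hA : IsAlgClosure A N := IsAlgClosed.isAlgClosure_of_transcendence_basis _ hv
  have hB : IsAlgClosure B N := IsAlgClosed.isAlgClosure_of_transcendence_basis _ hw
  let e1 : MvPolynomial ι k ≃ₐ[k] A := hv.1.aevalEquiv
  let e2 : MvPolynomial κ k ≃ₐ[k] B := hw.1.aevalEquiv
  let e0 : A ≃ₐ[k] B := e1.symm.trans ((MvPolynomial.renameEquiv k e).trans e2)
  obtain ⟨τ, hτ⟩ : ∃ τ : N ≃+* N, ∀ a : A, τ (a : N) = (e0 a : N) :=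
    ⟨IsAlgClosure.equivOfEquiv N N (e0 : A ≃+* B), fun a =>
      IsAlgClosure.equivOfEquiv_algebraMap N N (e0 : A ≃+* B) a⟩
  refine ⟨AlgEquiv.ofRingEquiv (f := τ) (fun r => ?_), fun i => ?_⟩
  · have h1 := hτ (algebraMap k A r)
    rw [AlgEquiv.commutes] at h1
    exact h1
  · have h1 := hτ (e1 (MvPolynomial.X i))
    have h2 : ((e1 (MvPolynomial.X i) : A) : N) = v i := by
      have h5 := hv.1.algebraMap_aevalEquiv (MvPolynomial.X i)
      rw [MvPolynomial.aeval_X] at h5
      exact h5
    have h3 : e0 (e1 (MvPolynomial.X i)) = e2 (MvPolynomial.X (e i)) := by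
      simp [e0]
    have h4 : ((e2 (MvPolynomial.X (e i)) : B) : N) = w (e i) := by
      have h5 := hw.1.algebraMap_aevalEquiv (MvPolynomial.X (e i))
      rw [MvPolynomial.aeval_X] at h5
      exact h5
    rw [h3, h4, h2] at h1
    exact h1

/-- Two transcendental elements are conjugate. -/
theorem move {k N : Type} [Field k] [Field N] [IsAlgClosed N] [Algebra k N] (s s' : N)
    (hs : Transcendental k s) (hs' : Transcendental k s') : ∃ τ : N ≃ₐ[k] N, τ s = s' := by
  have h1 : AlgebraicIndepOn k id ({s} : Set N) := algebraicIndependent_unique_type_iff.2 hs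
  have h2 : AlgebraicIndepOn k id ({s'} : Set N) := algebraicIndependent_unique_type_iff.2 hs'
  obtain ⟨t, ht, htb⟩ := exists_isTranscendenceBasis_superset h1
  obtain ⟨t', ht', htb'⟩ := exists_isTranscendenceBasis_superset h2
  obtain ⟨e0⟩ := Cardinal.eq.1 (htb.cardinalMk_eq htb')
  classical
  obtain ⟨τ, hτ⟩ := ext_basis _ _ htb htb'
    (e0.trans (Equiv.swap (e0 ⟨s, ht rfl⟩) ⟨s', ht' rfl⟩))
  refine ⟨τ, ?_⟩
  have h3 := hτ ⟨s, ht rfl⟩
  rw [Equiv.trans_apply, Equiv.swap_apply_left] at h3
  exact h3

/-- An algebraic element fixed by all automorphisms is purely inseparable. -/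
theorem fixed_p {k N : Type} [Field k] [Field N] [IsAlgClosed N] [Algebra k N] (x : N)
    (hx : IsAlgebraic k x) (h : ∀ τ : N ≃ₐ[k] N, τ x = x) : x ∈ perfectClosure k N := by
  classical
  rw [mem_perfectClosure_iff_natSepDegree_eq_one, natSepDegree_eq_of_isAlgClosed (E := N),
    Finset.card_eq_one]
  refine ⟨x, ?_⟩
  have hi := hx.isIntegral
  ext y
  rw [Multiset.mem_toFinset, Finset.mem_singleton, mem_aroots]
  constructor
  · rintro ⟨_, hy⟩
    obtain ⟨τ, hτ⟩ := conj_root (minpoly k x) (minpoly.irreducible hi) (minpoly.aeval k x) hy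
    rw [← hτ, h τ]
  · rintro rfl
    exact ⟨minpoly.ne_zero hi, minpoly.aeval k y⟩

section Desc

variable {K N : Type} [Field K] [Field N] [Algebra K N] [IsAlgClosed N] {L : Type} [Field L]
  [Algebra L N] [Algebra (RatFunc K) L]
  [Algebra (RatFunc K) N] [IsScalarTower (RatFunc K) L N] [IsScalarTower K (RatFunc K) N]
  [Algebra K L] [IsScalarTower K (RatFunc K) L] [Algebra.IsAlgebraic (RatFunc K) L]

/-- Descent: for a regular separable extension `L` of `K` algebraic over `K(s)`, and `s`
transcendental over `F`, the intersection of `L` with `F(s)` is `K(s)`. -/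
theorem desc_p [Algebra.IsSeparable (RatFunc K) L]
    (hreg : ∀ y : L, IsAlgebraic K y → y ∈ Set.range (algebraMap K L))
    (F : IntermediateField K N) (s : N) (hs' : algebraMap (RatFunc K) N RatFunc.X = s)
    (hs : Transcendental F s) (y : L)
    (hy : algebraMap L N y ∈ IntermediateField.adjoin F {s}) :
    y ∈ Set.range (algebraMap (RatFunc K) L) := by
  have hKL : IsScalarTower K L N := by
    refine IsScalarTower.of_algebraMap_eq fun x => ?_
    rw [IsScalarTower.algebraMap_apply K (RatFunc K) N,
      IsScalarTower.algebraMap_apply (RatFunc K) L N,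
      ← IsScalarTower.algebraMap_apply K (RatFunc K) L]
  let _ : Algebra K[X] L := ((algebraMap (RatFunc K) L).comp (algebraMap K[X] (RatFunc K))).toAlgebra
  have : IsScalarTower K[X] (RatFunc K) L := .of_algebraMap_eq fun _ => rfl
  have hy1 : IsAlgebraic K[X] y := (IsFractionRing.isAlgebraic_iff K[X] (RatFunc K) L).2
    (Algebra.IsAlgebraic.isAlgebraic y)
  obtain ⟨c, hc, p, hp, hpy⟩ := hy1.exists_integral_multiple
  have hcomp : (algebraMap L N).comp (algebraMap K[X] L) = (aeval s : K[X] →ₐ[K] N).toRingHom := by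
    apply Polynomial.ringHom_ext
    · intro a
      change algebraMap L N (algebraMap (RatFunc K) L (algebraMap K[X] (RatFunc K) (C a))) =
        aeval s (C a)
      rw [aeval_C, ← IsScalarTower.algebraMap_apply (RatFunc K) L N,
        IsScalarTower.algebraMap_apply K (RatFunc K) N]
      rfl
    · change algebraMap L N (algebraMap (RatFunc K) L (algebraMap K[X] (RatFunc K) X)) =
        aeval s X
      rw [aeval_X, ← IsScalarTower.algebraMap_apply (RatFunc K) L N, RatFunc.algebraMap_X, hs']
  have hcomp' : ∀ q : K[X], algebraMap L N (algebraMap K[X] L q) = aeval s q := fun q =>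
    RingHom.congr_fun hcomp q
  have hpy' : eval₂ (aeval s : K[X] →ₐ[K] N).toRingHom (algebraMap L N (c • y)) p = 0 := by
    rw [← hcomp, ← hom_eval₂, hpy, map_zero]
  have hmem : algebraMap L N (c • y) ∈ IntermediateField.adjoin F {s} := by
    rw [Algebra.smul_def, map_mul, hcomp']
    refine mul_mem ?_ hy
    rw [aeval_eq_sum_range]
    refine sum_mem fun i _ => ?_
    rw [Algebra.smul_def]
    refine mul_mem ?_ (pow_mem (IntermediateField.mem_adjoin_simple_self F s) i)
    exact (IntermediateField.adjoin F {s}).algebraMap_mem (algebraMap K F (c.coeff i))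
  obtain ⟨f, hf, hfy⟩ := coeff_int F s hs _ hmem p hp hpy'
  have hsK : Transcendental (algebraicClosure K N) s := by
    intro h
    exact hs ((h.restrictScalars K).tower_top F)
  obtain ⟨q, hq⟩ : ∃ q : ℕ, q = ringExpChar K := ⟨_, rfl⟩
  have hqK : ExpChar K q := by rw [hq]; infer_instance
  have hqR : ExpChar (RatFunc K) q := expChar_of_injective_algebraMap
    (algebraMap K (RatFunc K)).injective q
  have hqL : ExpChar L q := expChar_of_injective_algebraMap (algebraMap K L).injective q
  -- the coefficients are purely inseparable over `K(s)`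
  have hco : ∀ i, (f.coeff i : N) ∈ perfectClosure (RatFunc K) N := by
    intro i
    have hia : ∀ j, IsAlgebraic K (f.coeff j : N) := fun j =>
      (hf j).isAlgebraic.algHom F.val
    have h1 : (f.coeff i : N) ∈ perfectClosure L N := by
      refine fixed_p _ ((hia i).tower_top L) fun τ => ?_
      let τK : N →ₐ[K] N := (τ.restrictScalars K : N ≃ₐ[K] N)
      have hmemc : ∀ j, τ (f.coeff j : N) - (f.coeff j : N) ∈ algebraicClosure K N := by
        intro j
        refine sub_mem ?_ (mem_algebraicClosure_iff.2 (hia j))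
        exact mem_algebraicClosure_iff.2 ((hia j).algHom τK)
      let D : (algebraicClosure K N)[X] := ∑ j ∈ Finset.range (f.natDegree + 1),
        monomial j (⟨_, hmemc j⟩ : algebraicClosure K N)
      have hD : aeval s D = 0 := by
        have h2 : τ (algebraMap L N (c • y)) = algebraMap L N (c • y) := τ.commutes _
        have h3 : τ s = s := by
          rw [← hs', IsScalarTower.algebraMap_apply (RatFunc K) L N, τ.commutes]
        rw [← hfy, aeval_eq_sum_range, map_sum] at h2
        rw [map_sum]
        simp only [aeval_monomial]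
        have h4 : ∀ j, τ (f.coeff j • s ^ j) = τ (f.coeff j : N) * s ^ j := by
          intro j
          rw [Algebra.smul_def, map_mul, map_pow, h3]
          rfl
        simp only [h4] at h2
        have h5 : ∀ j, (algebraMap (algebraicClosure K N) N) ⟨_, hmemc j⟩ * s ^ j =
            τ (f.coeff j : N) * s ^ j - f.coeff j • s ^ j := by
          intro j
          rw [Algebra.smul_def]
          exact sub_mul _ _ _
        simp only [h5]
        rw [Finset.sum_sub_distrib, h2, sub_self]
      have hD0 : D = 0 := by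
        by_contra hne
        exact hsK ⟨D, hne, hD⟩
      by_cases hi : i ∈ Finset.range (f.natDegree + 1)
      · have h2 := congrArg (fun q => coeff q i) hD0
        simp only [D, finsetSum_coeff, coeff_monomial, coeff_zero] at h2
        rw [Finset.sum_ite_eq' (Finset.range (f.natDegree + 1)) i] at h2
        rw [if_pos hi] at h2
        exact sub_eq_zero.1 (congrArg Subtype.val h2)
      · rw [coeff_eq_zero_of_natDegree_lt (by simpa using hi)]
        exact map_zero τ
    obtain ⟨n, l, hl⟩ := (mem_perfectClosure_iff_pow_mem (F := L) (E := N) q).1 h1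
    have h2 : IsAlgebraic K l := by
      have := (hia i).pow (q ^ n)
      rw [← hl] at this
      exact (isAlgebraic_algebraMap_iff (algebraMap L N).injective).1 this
    obtain ⟨a, rfl⟩ := hreg l h2
    refine (mem_perfectClosure_iff_pow_mem (F := RatFunc K) (E := N) q).2 ⟨n, algebraMap K (RatFunc K) a, ?_⟩
    rw [← hl, ← IsScalarTower.algebraMap_apply, ← IsScalarTower.algebraMap_apply]
  have hfin : algebraMap L N (c • y) ∈ perfectClosure (RatFunc K) N := by
    rw [← hfy, aeval_eq_sum_range]
    refine sum_mem fun i _ => ?_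
    rw [Algebra.smul_def]
    refine mul_mem (hco i) (pow_mem ?_ i)
    rw [← hs']
    exact (perfectClosure (RatFunc K) N).algebraMap_mem _
  have hfin2 : c • y ∈ perfectClosure (RatFunc K) L :=
    (map_mem_perfectClosure_iff (IsScalarTower.toAlgHom (RatFunc K) L N)).1 hfin
  rw [perfectClosure.eq_bot_of_isSeparable, IntermediateField.mem_bot] at hfin2
  obtain ⟨z, hz⟩ := hfin2
  refine ⟨z / algebraMap K[X] (RatFunc K) c, ?_⟩
  have hc' : algebraMap K[X] L c ≠ 0 := by
    have h1 : algebraMap K[X] (RatFunc K) c ≠ 0 :=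
      (map_ne_zero_iff _ (IsFractionRing.injective K[X] (RatFunc K))).2 hc
    exact (map_ne_zero (algebraMap (RatFunc K) L)).2 h1
  rw [map_div₀, hz]
  change (c • y) / algebraMap K[X] L c = y
  rw [Algebra.smul_def, mul_div_cancel_left₀ _ hc']

/-- Automorphisms of a regular Galois extension `L` of `K(s)` are induced by automorphisms
over `F`. -/
theorem ext_gal_p [FiniteDimensional (RatFunc K) L] [IsGalois (RatFunc K) L]
    (hreg : ∀ y : L, IsAlgebraic K y → y ∈ Set.range (algebraMap K L))
    (F : IntermediateField K N) (s : N) (hs' : algebraMap (RatFunc K) N RatFunc.X = s)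
    (hs : Transcendental F s) (γ : L ≃ₐ[RatFunc K] L) :
    ∃ τ : N ≃ₐ[F] N, ∀ z : L, τ (algebraMap L N z) = algebraMap L N (γ z) := by
  have hpoly : ∀ q : K[X], algebraMap (RatFunc K) N (algebraMap K[X] (RatFunc K) q) ∈
      IntermediateField.adjoin F {s} := by
    intro q
    have hcomp : (algebraMap (RatFunc K) N).comp (algebraMap K[X] (RatFunc K)) =
        (aeval s : K[X] →ₐ[K] N).toRingHom := by
      apply Polynomial.ringHom_ext
      · intro a
        change algebraMap (RatFunc K) N (algebraMap K[X] (RatFunc K) (C a)) = aeval s (C a)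
        rw [aeval_C, IsScalarTower.algebraMap_apply K (RatFunc K) N]
        rfl
      · change algebraMap (RatFunc K) N (algebraMap K[X] (RatFunc K) X) = aeval s X
        rw [aeval_X, RatFunc.algebraMap_X, hs']
    have h1 : algebraMap (RatFunc K) N (algebraMap K[X] (RatFunc K) q) = aeval s q :=
      RingHom.congr_fun hcomp q
    rw [h1, aeval_eq_sum_range]
    refine sum_mem fun i _ => ?_
    rw [Algebra.smul_def]
    refine mul_mem ?_ (pow_mem (IntermediateField.mem_adjoin_simple_self F s) i)
    exact (IntermediateField.adjoin F {s}).algebraMap_mem (algebraMap K F (q.coeff i))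
  have hE : ∀ r : RatFunc K, algebraMap (RatFunc K) N r ∈ IntermediateField.adjoin F {s} := by
    intro r
    rw [← RatFunc.num_div_denom r, map_div₀]
    exact div_mem (hpoly _) (hpoly _)
  let S : Subgroup (N ≃ₐ[RatFunc K] N) :=
    { carrier := {τ | ∀ x ∈ IntermediateField.adjoin F {s}, τ x = x}
      one_mem' := fun x _ => rfl
      mul_mem' := fun {a b} ha hb x hx => by
        rw [AlgEquiv.mul_apply, hb x hx, ha x hx]
      inv_mem' := fun {a} ha x hx => by
        have h1 : a⁻¹ (a x) = x := a.symm_apply_apply x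
        rw [ha x hx] at h1
        exact h1 }
  let H : Subgroup (L ≃ₐ[RatFunc K] L) :=
    S.map (AlgEquiv.restrictNormalHom (F := RatFunc K) (K₁ := N) L)
  obtain ⟨q, hq⟩ : ∃ q : ℕ, q = ringExpChar K := ⟨_, rfl⟩
  have hqK : ExpChar K q := by rw [hq]; infer_instance
  have hqR : ExpChar (RatFunc K) q := expChar_of_injective_algebraMap
    (algebraMap K (RatFunc K)).injective q
  have hfix : IntermediateField.fixedField H = ⊥ := by
    rw [eq_bot_iff]
    intro y hy
    rw [IntermediateField.mem_fixedField_iff] at hy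
    let j : RatFunc K →+* IntermediateField.adjoin F {s} :=
      (algebraMap (RatFunc K) N).codRestrict (IntermediateField.adjoin F {s}) hE
    let _ : Algebra (RatFunc K) (IntermediateField.adjoin F {s}) := j.toAlgebra
    have : IsScalarTower (RatFunc K) (IntermediateField.adjoin F {s}) N :=
      .of_algebraMap_eq fun _ => rfl
    have hqE : ExpChar (IntermediateField.adjoin F {s}) q :=
      expChar_of_injective_algebraMap j.injective q
    have halg : IsAlgebraic (IntermediateField.adjoin F {s}) (algebraMap L N y) :=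
      IsAlgebraic.tower_top (K := RatFunc K) _
        ((Algebra.IsAlgebraic.isAlgebraic (R := RatFunc K) y).algebraMap (A := N))
    have h1 := fixed_p (k := IntermediateField.adjoin F {s}) (N := N) (algebraMap L N y)
      halg (fun τ => by
        let τ' : N ≃ₐ[RatFunc K] N := AlgEquiv.ofRingEquiv (f := (τ : N ≃+* N)) (fun r =>
          τ.commutes (⟨algebraMap (RatFunc K) N r, hE r⟩ : IntermediateField.adjoin F {s}))
        have hτ' : τ' ∈ S := fun x hx =>
          τ.commutes (⟨x, hx⟩ : IntermediateField.adjoin F {s})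
        have h2 := hy (AlgEquiv.restrictNormalHom L τ') ⟨τ', hτ', rfl⟩
        have h3 := AlgEquiv.restrictNormal_commutes τ' L y
        have h4 : τ'.restrictNormal L y = y := h2
        rw [h4] at h3
        exact h3.symm)
    obtain ⟨n, z, hz⟩ := (mem_perfectClosure_iff_pow_mem
      (F := IntermediateField.adjoin F {s}) (E := N) q).1 h1
    have h2 : algebraMap L N (y ^ q ^ n) ∈ IntermediateField.adjoin F {s} := by
      rw [map_pow, ← hz]
      exact z.2
    obtain ⟨r, hr⟩ := desc_p hreg F s hs' hs (y ^ q ^ n) h2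
    have h3 : y ∈ perfectClosure (RatFunc K) L :=
      (mem_perfectClosure_iff_pow_mem (F := RatFunc K) (E := L) q).2 ⟨n, r, hr⟩
    rw [perfectClosure.eq_bot_of_isSeparable] at h3
    exact h3
  have htop : H = ⊤ := by
    rw [← IntermediateField.fixingSubgroup_fixedField H, hfix, IntermediateField.fixingSubgroup_bot]
  have hγ : γ ∈ H := by rw [htop]; trivial
  obtain ⟨τ, hτ, hτγ⟩ := hγ
  refine ⟨AlgEquiv.ofRingEquiv (f := (τ : N ≃+* N)) (fun x =>
    hτ _ ((IntermediateField.adjoin F {s}).algebraMap_mem x)), fun z => ?_⟩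
  have h1 := AlgEquiv.restrictNormal_commutes τ L z
  have h2 : τ.restrictNormal L = γ := hτγ
  rw [h2] at h1
  exact h1.symm

end Desc

theorem t_step : St_step := by
  intro K E N _ _ _ _ _ _ _ _ _ _ _ hreg _ F φ ψ hφ hψ
  let _ : Algebra E N := ψ.toRingHom.toAlgebra
  let _ : Algebra (RatFunc K) N := (ψ.toRingHom.comp (algebraMap (RatFunc K) E)).toAlgebra
  have hψ' : ∀ z, algebraMap E N z = ψ z := fun _ => rfl
  have t1 : IsScalarTower (RatFunc K) E N := .of_algebraMap_eq fun _ => rfl
  have t2 : IsScalarTower K E N := .of_algebraMap_eq fun x => (ψ.commutes x).symm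
  have t3 : IsScalarTower K (RatFunc K) N := by
    refine .of_algebraMap_eq fun x => ?_
    rw [IsScalarTower.algebraMap_apply K E N, IsScalarTower.algebraMap_apply (RatFunc K) E N,
      ← IsScalarTower.algebraMap_apply K (RatFunc K) E]
  obtain ⟨τ₀, hτ₀⟩ := move _ _ hφ hψ
  -- the two embeddings agree on `K(x)`
  have hag : ∀ r : RatFunc K, τ₀ (φ (algebraMap (RatFunc K) E r)) = algebraMap (RatFunc K) N r := by
    let a1 : RatFunc K →ₐ[K] N := ((τ₀.restrictScalars K : N ≃ₐ[K] N) : N →ₐ[K] N).comp
      (φ.comp (IsScalarTower.toAlgHom K (RatFunc K) E))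
    let a2 : RatFunc K →ₐ[K] N := IsScalarTower.toAlgHom K (RatFunc K) N
    have hX : a1 RatFunc.X = a2 RatFunc.X := hτ₀
    have hp : ∀ q : K[X], a1 (algebraMap K[X] (RatFunc K) q) =
        a2 (algebraMap K[X] (RatFunc K) q) := by
      intro q
      have h1 : a1.comp (IsScalarTower.toAlgHom K K[X] (RatFunc K)) =
          a2.comp (IsScalarTower.toAlgHom K K[X] (RatFunc K)) := by
        apply Polynomial.algHom_ext
        change a1 (algebraMap K[X] (RatFunc K) X) = a2 (algebraMap K[X] (RatFunc K) X)
        rw [RatFunc.algebraMap_X]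
        exact hX
      exact DFunLike.congr_fun h1 q
    intro r
    have h2 : a1 r = a2 r := by
      rw [← RatFunc.num_div_denom r, map_div₀, map_div₀, hp, hp]
    exact h2
  let α : E →ₐ[RatFunc K] N := IsScalarTower.toAlgHom (RatFunc K) E N
  let β : E →ₐ[RatFunc K] N :=
    { toRingHom := (τ₀ : N →+* N).comp φ.toRingHom
      commutes' := hag }
  obtain ⟨σ, hσ⟩ := surj α β
  obtain ⟨γ, hγ⟩ : ∃ γ : E ≃ₐ[RatFunc K] E, γ = σ.restrictNormal E := ⟨_, rfl⟩
  have h1 : ∀ y, ψ (γ y) = τ₀ (φ y) := by
    intro y
    have h2 := AlgEquiv.restrictNormal_commutes σ E y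
    rw [hγ]
    exact h2.trans (hσ y)
  obtain ⟨τ₁, hτ₁⟩ := ext_gal_p (L := E) hreg F _ rfl hψ γ.symm
  refine ⟨τ₀.trans τ₁, fun y => ?_⟩
  rw [AlgEquiv.trans_apply, ← h1]
  have h3 := hτ₁ (γ y)
  rw [AlgEquiv.symm_apply_apply] at h3
  exact h3

end Pool.Agent.Y761.AW
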